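import Pool.Agent.Run7.h172.Nil.Stm
import Pool.Agent.Helper44K9.FN.Fina

/-! # Project NIL (helper172), piece ALLN: from one length of the windows to all lengths, natural averages -/

set_option autoImplicit false

namespace Pool.Agent.Run7.h48.Nil.ALLN

open Finset
open Pool.Agent.Helper44K9.FU (Mul1)
open Pool.Agent.Helper44K9.FN (cw sT)
open Pool.Agent.Helper44K9.FN.FinaL

/-- [ALLN] -/
theorem alln : Pool.Agent.Run7.h172.Nil.S_ALLN := by
  classical
  intro T hT hall ε hε
  obtain ⟨H1, N0, hH1, hone⟩ := hall (ε / 16) (by positivity)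
  have hH1r : (0 : ℝ) < H1 := by exact_mod_cast hH1
  obtain ⟨A, hA⟩ := exists_nat_ge (4 * (H1 : ℝ) / ε)
  refine ⟨N0 + A + 1, fun f hf N H hH hN => ?_⟩
  have hHr : (0 : ℝ) < H := by exact_mod_cast (by omega : 0 < H)
  have hNr : (0 : ℝ) < N := by exact_mod_cast (by omega : 0 < N)
  set s : ℕ → ℝ := fun n => sT T f n H1 / H1 with hs
  have hs01 : ∀ n, 0 ≤ s n ∧ s n ≤ 1 := by
    intro n
    simp only [hs]
    refine ⟨div_nonneg (sT_nonneg n H1) (Nat.cast_nonneg _), ?_⟩
    exact div_le_one_of_le₀ (sT_le (Nat.cast_nonneg _) fun ψ hψ => cw_le hf.1 (hT ψ hψ) n H1) (Nat.cast_nonneg _)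
  -- the short windows
  have hsm : ∑ n ∈ Icc 1 (2 * N), s n ≤ ε / 4 * N := by
    have h1 : ∀ n, s n ≤ (if ∃ ψ ∈ T, ε / 16 * H1 ≤ cw f ψ n H1 then 1 else 0) + ε / 16 := by
      intro n
      split_ifs with h
      · linarith [(hs01 n).2]
      · push Not at h
        rw [zero_add]
        simp only [hs]
        rw [div_le_iff₀ hH1r]
        exact sT_le (by positivity) fun ψ hψ => (h ψ hψ).le
    have h2 := hone (2 * N) (by omega) f hf
    push_cast at h2
    calc ∑ n ∈ Icc 1 (2 * N), s n ≤ ∑ n ∈ Icc 1 (2 * N),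
        ((if ∃ ψ ∈ T, ε / 16 * H1 ≤ cw f ψ n H1 then (1 : ℝ) else 0) + ε / 16) :=
          sum_le_sum fun n _ => h1 n
      _ = (((Icc 1 (2 * N)).filter (fun n => ∃ ψ ∈ T, ε / 16 * H1 ≤ cw f ψ n H1)).card : ℝ) +
          (2 * N : ℝ) * (ε / 16) := by
          rw [sum_add_distrib, sum_const, Nat.card_Icc, Nat.add_sub_cancel, nsmul_eq_mul, card_filter]
          push_cast
          rfl
      _ ≤ ε / 4 * N := by linarith
  -- one long window
  have hlong : ∀ n, sT T f n H ≤ ∑ i ∈ range H, s (n + i) + 2 * H1 := by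
    intro n
    refine sT_le (add_nonneg (sum_nonneg fun i _ => (hs01 (n + i)).1) (by positivity)) fun ψ hψ => ?_
    have hg : ∀ m, ‖f m * ψ m‖ ≤ 1 := fun m => by
      rw [norm_mul]
      exact mul_le_one₀ (hf.1 m) (norm_nonneg _) (hT ψ hψ m)
    have h3 := sub_window (g := fun m => f m * ψ m) hg n H H1
    have h4 : ∑ i ∈ range H, ‖WW (fun m => f m * ψ m) (n + i) H1‖ ≤ H1 * ∑ i ∈ range H, s (n + i) := by
      rw [mul_sum]
      refine sum_le_sum fun i _ => ?_
      simp only [hs]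
      rw [mul_div_cancel₀ _ hH1r.ne']
      exact le_sT hT hf.1 (n + i) H1 hψ
    have h5 : (H1 : ℝ) * cw f ψ n H ≤ H1 * (∑ i ∈ range H, s (n + i) + 2 * H1) := by
      refine h3.trans ?_
      rw [mul_add]
      nlinarith
    exact le_of_mul_le_mul_left h5 hH1r
  have hH1H : 2 * (H1 : ℝ) ≤ ε / 2 * H := by
    have h1 : 4 * (H1 : ℝ) / ε ≤ H := hA.trans (by exact_mod_cast (by omega : A ≤ H))
    rw [div_le_iff₀ hε] at h1
    linarith
  calc ∑ n ∈ Icc 1 N, sT T f n H ≤ ∑ n ∈ Icc 1 N, (∑ i ∈ range H, s (n + i) + 2 * H1) :=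
        sum_le_sum fun n _ => hlong n
    _ = ∑ i ∈ range H, ∑ n ∈ Icc 1 N, s (n + i) + N * (2 * H1) := by
        rw [sum_add_distrib, sum_comm, sum_const, Nat.card_Icc, Nat.add_sub_cancel, nsmul_eq_mul]
    _ ≤ ∑ i ∈ range H, ε / 4 * N + N * (2 * H1) := by
        refine add_le_add (sum_le_sum fun i hi => ?_) le_rfl
        rw [mem_range] at hi
        refine le_trans ?_ hsm
        have h1 : ∑ n ∈ Icc 1 N, s (n + i) = ∑ m ∈ (Icc 1 N).image (fun n => n + i), s m := by
          rw [sum_image fun a _ b _ hab => by omega]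
        rw [h1]
        refine sum_le_sum_of_subset_of_nonneg ?_ fun m _ _ => (hs01 m).1
        intro m hm
        rw [mem_image] at hm
        obtain ⟨n, hn, rfl⟩ := hm
        rw [mem_Icc] at hn ⊢
        omega
    _ = ε / 4 * H * N + N * (2 * H1) := by rw [sum_const, card_range, nsmul_eq_mul]; ring
    _ ≤ ε / 4 * H * N + N * (ε / 2 * H) := by
        refine add_le_add le_rfl (mul_le_mul_of_nonneg_left hH1H hNr.le)
    _ ≤ ε * H * N := by
        have : 0 < ε * H * N := by positivity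
        nlinarith

end Pool.Agent.Run7.h48.Nil.ALLN
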