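import Pool.Agent.Run7.h172.Nil.Stm
import Pool.Agent.Run7.h172.Npp.Aff
import Pool.Agent.Helper44K9.FN.AsmG
import Pool.Agent.Helper44K9.FN.Red
import Pool.Agent.Helper44K9.FN.Vert
import Pool.Agent.Helper44K9.FN.Mean

/-! # Project NIL (helper172), piece ASMN: two-step nilmanifolds, assembly with natural averages

Copy of `Helper44K9/FN/AsmG.lean` with natural averages. -/

set_option autoImplicit false

namespace Pool.Agent.Run7.h48.Nil.ASMN

open Finset MeasureTheory Polynomial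
open Pool.Agent.H807R2.Dav (ee norm_ee)
open Pool.Agent.Helper44K9.FU (Mul1)
open Pool.Agent.Helper44K9.FB (lf aff oSup lf_cont)
open Pool.Agent.Helper44K9.FN (Clos cw pw Cl Tg Th Rl Box dt sT Irr nSup meanF vb mulG cst bf fr md lift_torus Cl_bdd
  le_sT sT_nonneg sum_win aff_iter fr_box md_fr orb)
open Pool.Agent.Run7.h172.Npp (fbN)

lemma final_sum {ι : Type} (S : Finset ι) (M e : ℝ) (s : ι → ℕ → ℝ) (G X : ℕ → ℝ) (N : ℕ)
    (hpt : ∀ n, X n ≤ ∑ k ∈ S, M * s k n + G n + e) :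
    ∑ n ∈ Icc 1 N, X n ≤ ∑ k ∈ S, M * ∑ n ∈ Icc 1 N, s k n + ∑ n ∈ Icc 1 N, G n + e * N := by
  calc ∑ n ∈ Icc 1 N, X n ≤ ∑ n ∈ Icc 1 N, (∑ k ∈ S, M * s k n + G n + e) := sum_le_sum fun n _ => hpt n
    _ = _ := by
        simp only [sum_add_distrib, mul_sum]
        rw [sum_comm, sum_const, Nat.card_Icc, Nat.add_sub_cancel, nsmul_eq_mul, mul_comm e]

/-- [ASMN] -/
theorem asmn (hVPN : Pool.Agent.Run7.h172.Nil.S_VPN) : Pool.Agent.Run7.h172.Nil.S_ASMN := by
  classical
  intro d c β hβ F hF hinv E hEc hEi hEv ε hε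
  obtain ⟨S, φ, M, hM, hφ, hS⟩ := Pool.Agent.Helper44K9.FN.vert d c β F hF hinv (ε / 16) (by positivity)
  set S' : Finset (Fin c → ℤ) := S.filter (fun k => k ≠ 0) with hS'
  -- normalized functions
  have hTh : ∀ k, Th (vb β k) (fun x => φ k x / M) := by
    intro k
    refine ⟨(hφ k).1.div_const _, fun x => ?_, fun x m => ?_⟩
    · rw [norm_div, Complex.norm_real, Real.norm_of_nonneg hM.le, div_le_one hM]
      exact (hφ k).2.1 x
    · show φ k (x + cst m) / M = _ * (φ k x / M)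
      rw [(hφ k).2.2 x m, mul_div_assoc]
  -- the vertical characters
  have hchar : ∀ k : Fin c → ℤ, ∃ H₀ : ℕ, k ∈ S' → ∀ f : ℕ → ℂ, Mul1 f → ∀ N H : ℕ, H₀ ≤ H → H ≤ N →
      ∑ n ∈ Icc 1 N, sT (Cl (fun x => φ k x / M) (Tg E)) f n H ≤
        (ε / (4 * (#S' + 1) * M)) * H * N := by
    intro k
    by_cases hk : k ∈ S'
    · have hk0 : k ≠ 0 := (mem_filter.1 hk).2
      obtain ⟨H₀, h⟩ := hVPN d (vb β k) (fun x => φ k x / M) (hTh k) (hβ k hk0) E hEc hEi hEv
        (ε / (4 * (#S' + 1) * M)) (by positivity)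
      exact ⟨H₀, fun _ => h⟩
    · exact ⟨0, fun h => absurd h hk⟩
  choose HG hG using hchar
  -- the horizontal part
  have hvb0 : vb β (0 : Fin c → ℤ) = 0 := by unfold vb; simp
  have hbf0 : ∀ x y : Fin d → ℝ, bf (0 : Matrix (Fin d) (Fin d) ℤ) x y = 0 := by intro x y; unfold bf; simp
  have hper : ∀ (x : Fin d → ℝ) (m : Fin d → ℤ), φ 0 (x + cst m) = φ 0 x := by
    intro x m
    rw [(hφ 0).2.2 x m, hvb0, hbf0]
    unfold ee
    simp
  obtain ⟨F₀, hF₀⟩ := lift_torus (hφ 0).1 hper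
  obtain ⟨HZ, hZ⟩ := fbN (s := 1) (A := (1 : Matrix (Fin d) (Fin d) ℤ)) (by simp) F₀ hEc
    (fun k hk _ => ⟨hEv k hk, hEi k hk⟩) (ε / 4) (by positivity)
  set c₀ : ℂ := ∫ y, F₀ y with hc₀
  have hmean := Pool.Agent.Helper44K9.FN.mean d c F hF S φ (fun k => (hφ k).1) (ε / 16) hS F₀ hF₀
  refine ⟨∑ k ∈ S', HG k + HZ + 3, fun f hf N H hH hN => ?_⟩
  have hHr : (0 : ℝ) < H := by exact_mod_cast (by omega : 0 < H)
  have hNr : (3 : ℝ) ≤ N := by exact_mod_cast (by omega : 3 ≤ N)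
  have hμ := hf.1
  set ι : ℂ := if (0 : Fin c → ℤ) ∈ S then 1 else 0 with hι
  have hιc : (if (0 : Fin c → ℤ) ∈ S then c₀ else 0) = ι * c₀ := by
    rw [hι]; split_ifs <;> simp
  rw [hιc] at hmean
  -- pointwise
  have hpt : ∀ n, nSup β (fun z => F z - meanF F) E f n H ≤
      ∑ k ∈ S', M * sT (Cl (fun x => φ k x / M) (Tg E)) f n H +
      oSup (1 : Matrix (Fin d) (Fin d) ℤ) (fun y => F₀ y - c₀) E f n H + ε / 8 * H := by
    intro n
    have hnn : 0 ≤ ∑ k ∈ S', M * sT (Cl (fun x => φ k x / M) (Tg E)) f n H +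
        oSup (1 : Matrix (Fin d) (Fin d) ℤ) (fun y => F₀ y - c₀) E f n H + ε / 8 * H := by
      refine add_nonneg (add_nonneg (sum_nonneg fun k _ => mul_nonneg hM.le (sT_nonneg _ _ _ _)) ?_) (by positivity)
      exact Real.iSup_nonneg fun _ => norm_nonneg _
    refine Real.iSup_le (fun p => ?_) hnn
    obtain ⟨⟨g, hg⟩, y⟩ := p
    show ‖∑ h ∈ Icc 1 H, f (n + h) * (F ((mulG β g)^[n + h] y) - meanF F)‖ ≤ _
    set z : ℕ → (Fin d → ℝ) × (Fin c → ℝ) := fun m => (mulG β g)^[m] y with hz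
    have hz1 : ∀ m, (z m).1 = (m : ℝ) • g.1 + y.1 := by
      intro m
      obtain ⟨P, _, hP⟩ := orb d c β 0 g y
      exact (hP m).1
    -- one nonzero character
    have hone : ∀ k ∈ S', ‖∑ h ∈ Icc 1 H, f (n + h) * (ee (dt k (z (n + h)).2) * φ k (z (n + h)).1)‖ ≤
        M * sT (Cl (fun x => φ k x / M) (Tg E)) f n H := by
      intro k _
      obtain ⟨P, hP2, hP⟩ := orb d c β k g y
      obtain ⟨P', hP'2, hP'⟩ := Pool.Agent.Helper44K9.FN.red d (vb β k) (fun x => φ k x / M) (hTh k) g.1 y.1 P hP2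
      have h1 : ∑ h ∈ Icc 1 H, f (n + h) * (ee (dt k (z (n + h)).2) * φ k (z (n + h)).1) =
          M * ∑ m ∈ Ioc n (n + H), f m * (ee (P'.eval (m : ℝ)) * (φ k ((m : ℝ) • fr g.1 + y.1) / M)) := by
        rw [sum_win, mul_sum]
        refine sum_congr rfl fun h _ => ?_
        rw [← hP' (n + h), (hP (n + h)).2, (hP (n + h)).1]
        have hM0 : (M : ℂ) ≠ 0 := by exact_mod_cast hM.ne'
        field_simp
      rw [h1, norm_mul, Complex.norm_real, Real.norm_of_nonneg hM.le]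
      refine mul_le_mul_of_nonneg_left ?_ hM.le
      refine le_sT (T := Cl (fun x => φ k x / M) (Tg E)) (fun ψ hψ m => Cl_bdd (hTh k).2.1 hψ m) hμ
        (ψ := fun m => ee (P'.eval (m : ℝ)) * (φ k ((m : ℝ) • fr g.1 + y.1) / M)) ?_ n H
      exact ⟨fr g.1, ⟨fr_box _, by rw [md_fr]; exact hg⟩, y.1, P', hP'2, fun m => rfl⟩
    -- the zero character
    have hzero : ‖∑ h ∈ Icc 1 H, f (n + h) * (φ 0 (z (n + h)).1 - c₀)‖ ≤
        oSup (1 : Matrix (Fin d) (Fin d) ℤ) (fun y => F₀ y - c₀) E f n H := by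
      have h1 : ∑ h ∈ Icc 1 H, f (n + h) * (φ 0 (z (n + h)).1 - c₀) =
          ∑ h ∈ Icc 1 H, f (n + h) * (F₀ ((aff (1 : Matrix (Fin d) (Fin d) ℤ) (md g.1))^[n + h] (md y.1)) - c₀) := by
        refine sum_congr rfl fun h _ => ?_
        rw [aff_iter, hF₀, hz1]
      rw [h1]
      have hbdd : BddAbove (Set.range fun p : E × (Fin d → UnitAddCircle) =>
          ‖∑ h ∈ Icc 1 H, f (n + h) * (F₀ ((aff (1 : Matrix (Fin d) (Fin d) ℤ) p.1)^[n + h] p.2) - c₀)‖) := by
        refine ⟨∑ h ∈ Icc 1 H, (‖F₀‖ + ‖c₀‖), ?_⟩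
        rintro _ ⟨p, rfl⟩
        refine (norm_sum_le _ _).trans (sum_le_sum fun h _ => ?_)
        rw [norm_mul]
        calc _ ≤ 1 * ‖F₀ ((aff (1 : Matrix (Fin d) (Fin d) ℤ) p.1)^[n + h] p.2) - c₀‖ :=
              mul_le_mul_of_nonneg_right (hμ _) (norm_nonneg _)
          _ ≤ _ := by
              rw [one_mul]
              exact (norm_sub_le _ _).trans (add_le_add (F₀.norm_coe_le_norm _) le_rfl)
      exact le_ciSup hbdd (⟨md g.1, hg⟩, md y.1)
    -- the error
    have herr : ‖∑ h ∈ Icc 1 H, f (n + h) * ((F (z (n + h)) - ∑ k ∈ S, ee (dt k (z (n + h)).2) * φ k (z (n + h)).1) -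
        (meanF F - ι * c₀))‖ ≤ ε / 8 * H := by
      refine (norm_sum_le _ _).trans ?_
      calc ∑ h ∈ Icc 1 H, ‖f (n + h) * ((F (z (n + h)) - ∑ k ∈ S, ee (dt k (z (n + h)).2) * φ k (z (n + h)).1) -
          (meanF F - ι * c₀))‖ ≤ ∑ h ∈ Icc 1 H, ε / 8 := by
            refine sum_le_sum fun h _ => ?_
            rw [norm_mul]
            calc _ ≤ 1 * ‖(F (z (n + h)) - ∑ k ∈ S, ee (dt k (z (n + h)).2) * φ k (z (n + h)).1) -
                  (meanF F - ι * c₀)‖ := mul_le_mul_of_nonneg_right (hμ _) (norm_nonneg _)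
              _ ≤ ε / 8 := by
                  rw [one_mul]
                  refine (norm_sub_le _ _).trans ?_
                  have h1 := hS (z (n + h)).1 (z (n + h)).2
                  rw [Prod.mk.eta] at h1
                  linarith
        _ = ε / 8 * H := by rw [sum_const, Nat.card_Icc, nsmul_eq_mul]; simp [mul_comm]
    -- the decomposition
    have hsplit : ∑ h ∈ Icc 1 H, f (n + h) * (F (z (n + h)) - meanF F) =
        ∑ k ∈ S', ∑ h ∈ Icc 1 H, f (n + h) * (ee (dt k (z (n + h)).2) * φ k (z (n + h)).1) +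
        ι * ∑ h ∈ Icc 1 H, f (n + h) * (φ 0 (z (n + h)).1 - c₀) +
        ∑ h ∈ Icc 1 H, f (n + h) * ((F (z (n + h)) - ∑ k ∈ S, ee (dt k (z (n + h)).2) * φ k (z (n + h)).1) -
          (meanF F - ι * c₀)) := by
      rw [sum_comm, mul_sum, ← sum_add_distrib, ← sum_add_distrib]
      refine sum_congr rfl fun h _ => ?_
      have h1 := sum_filter_add_sum_filter_not S (fun k : Fin c → ℤ => k ≠ 0)
        (fun k => ee (dt k (z (n + h)).2) * φ k (z (n + h)).1)
      have h2 : ∑ k ∈ S.filter (fun k => ¬ k ≠ 0), ee (dt k (z (n + h)).2) * φ k (z (n + h)).1 =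
          ι * φ 0 (z (n + h)).1 := by
        have h3 : ∀ k ∈ S.filter (fun k => ¬ k ≠ 0), ee (dt k (z (n + h)).2) * φ k (z (n + h)).1 =
            φ 0 (z (n + h)).1 := by
          intro k hk
          have h4 : k = 0 := not_not.1 (mem_filter.1 hk).2
          subst h4
          have h5 : dt (0 : Fin c → ℤ) (z (n + h)).2 = 0 := by unfold dt; simp
          rw [h5]
          unfold ee
          simp
        rw [sum_congr rfl h3, sum_const]
        have h5 : S.filter (fun k => ¬ k ≠ 0) = if (0 : Fin c → ℤ) ∈ S then {0} else ∅ := by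
          ext k
          simp only [mem_filter, not_not]
          split_ifs with h6
          · rw [mem_singleton]
            constructor
            · exact fun h => h.2
            · rintro rfl; exact ⟨h6, rfl⟩
          · constructor
            · rintro ⟨h7, rfl⟩; exact absurd h7 h6
            · intro h; simp at h
        rw [h5, hι]
        split_ifs <;> simp
      rw [← h1, h2, ← mul_sum]
      ring
    rw [hsplit]
    refine (norm_add_le _ _).trans (add_le_add ((norm_add_le _ _).trans (add_le_add ?_ ?_)) herr)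
    · exact (norm_sum_le _ _).trans (sum_le_sum fun k hk => hone k hk)
    · rw [norm_mul]
      have h1 : ‖ι‖ ≤ 1 := by rw [hι]; split_ifs <;> simp
      calc _ ≤ 1 * ‖∑ h ∈ Icc 1 H, f (n + h) * (φ 0 (z (n + h)).1 - c₀)‖ := mul_le_mul_of_nonneg_right h1 (norm_nonneg _)
        _ ≤ _ := by rw [one_mul]; exact hzero
  calc ∑ n ∈ Icc 1 N, nSup β (fun z => F z - meanF F) E f n H ≤
      ∑ k ∈ S', M * ∑ n ∈ Icc 1 N, sT (Cl (fun x => φ k x / M) (Tg E)) f n H +
        ∑ n ∈ Icc 1 N, oSup (1 : Matrix (Fin d) (Fin d) ℤ) (fun y => F₀ y - c₀) E f n H +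
        ε / 8 * H * N :=
        final_sum S' M (ε / 8 * H) (fun k n => sT (Cl (fun x => φ k x / M) (Tg E)) f n H)
          (fun n => oSup (1 : Matrix (Fin d) (Fin d) ℤ) (fun y => F₀ y - c₀) E f n H)
          (fun n => nSup β (fun z => F z - meanF F) E f n H) N hpt
    _ ≤ ∑ k ∈ S', (ε / (4 * (#S' + 1))) * H * N + ε / 4 * H * N +
        ε / 8 * H * N := by
        refine add_le_add (add_le_add (sum_le_sum fun k hk => ?_) (hZ f hf N H (by omega) hN)) le_rfl
        have h1 : HG k ≤ ∑ k ∈ S', HG k := single_le_sum (f := HG) (fun _ _ => Nat.zero_le _) hk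
        have h2 := hG k hk f hf N H (by omega) hN
        refine (mul_le_mul_of_nonneg_left h2 hM.le).trans (le_of_eq ?_)
        have h3 : M * (ε / (4 * ((#S' : ℝ) + 1) * M)) = ε / (4 * ((#S' : ℝ) + 1)) := by
          rw [mul_div_assoc', mul_comm M ε, mul_div_mul_right _ _ hM.ne']
        rw [← h3]
        ring
    _ ≤ ε / 4 * H * N + ε / 4 * H * N + ε / 8 * H * N := by
        refine add_le_add (add_le_add ?_ le_rfl) le_rfl
        rw [sum_const, nsmul_eq_mul]
        have h1 : (#S' : ℝ) * (ε / (4 * (#S' + 1)) * H * N) = (#S' * (ε / (4 * (#S' + 1)))) * (H * N) := by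
          ring
        rw [h1, mul_assoc (ε / 4)]
        have h2 : (0 : ℝ) ≤ #S' := Nat.cast_nonneg _
        refine mul_le_mul_of_nonneg_right ?_ (mul_nonneg hHr.le (by linarith))
        rw [mul_div_assoc', div_le_div_iff₀ (by linarith) (by norm_num)]
        nlinarith
    _ ≤ ε * H * N := by
        have h1 : 0 < ε * H := by positivity
        nlinarith

end Pool.Agent.Run7.h48.Nil.ASMN
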